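import Pool.Agent.Lib.MP_b549f0_co.Lower
import Pool.Agent.Lib.MP_b549f0_co.UpperD
import Pool.Agent.Lib.MP_b549f0_co.Heis

/-!
The least order `v` of a trivalent graph representing a directly indecomposable group of odd
order `n`, up to an additive error `O(n)`: a generator of order three costs `4 n / 3` vertices,
any other generator costs `2 n`.
-/

namespace Pool.Agent.Results.MP_b549f0_co.OddOrder

open Pool.Agent.Lib.MP_b549f0_co

universe u

theorem result (G : Type u) [Group G] [Finite G] [Nontrivial G] (hodd : Odd (Nat.card G))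
    (hind : ∀ A B : Subgroup G, A.Normal → B.Normal → IsCompl A B → A = ⊥ ∨ B = ⊥) :
    ∃ v m : ℕ,
      IsLeast {k | ∃ (V : Type u) (X : SimpleGraph V), Finite V ∧
        (∀ x, (X.neighborSet x).ncard = 3) ∧ Nonempty ((X ≃g X) ≃* G) ∧ Nat.card V = k} v ∧
      IsLeast {k | ∃ S : Set G, Subgroup.closure S = ⊤ ∧
        4 * {s ∈ S | orderOf s = 3}.ncard + 6 * {s ∈ S | orderOf s ≠ 3}.ncard = k} m ∧
      Nat.card G * m ≤ 3 * v + 6 * Nat.card G ∧ 3 * v ≤ Nat.card G * m + 36 * Nat.card G ∧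
      4 * Group.rank G ≤ m ∧ m ≤ 6 * Group.rank G ∧
      ((∀ g : G, g ^ 3 = 1) → m = 4 * Group.rank G) := by
  classical
  have cf : ∀ (S : Finset G) (p : G → Prop) [DecidablePred p],
      {s ∈ (S : Set G) | p s}.ncard = (S.filter p).card := fun S p _ => by
    rw [← Set.ncard_coe_finset, Finset.coe_filter]; rfl
  obtain ⟨R, hR, hR'⟩ := Group.rank_spec G
  obtain ⟨V0, X0, a1, a2, a3, -⟩ := upper_bound R hR'
  have ex : ∀ s : Set ℕ, s.Nonempty → ∃ k, IsLeast s k := fun s hs =>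
    ⟨_, Nat.sInf_mem hs, fun _ => Nat.sInf_le⟩
  obtain ⟨v, hv⟩ := ex {k | ∃ (V : Type u) (X : SimpleGraph V), Finite V ∧
      (∀ x, (X.neighborSet x).ncard = 3) ∧ Nonempty ((X ≃g X) ≃* G) ∧ Nat.card V = k}
    ⟨_, V0, X0, a1, a2, a3, rfl⟩
  obtain ⟨m, hm⟩ := ex {k | ∃ S : Set G, Subgroup.closure S = ⊤ ∧
      4 * {s ∈ S | orderOf s = 3}.ncard + 6 * {s ∈ S | orderOf s ≠ 3}.ncard = k}
    ⟨_, R, hR', rfl⟩
  refine ⟨v, m, hv, hm, ?_⟩
  have le : ∀ S : Finset G, Subgroup.closure (S : Set G) = ⊤ → m ≤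
      4 * (S.filter fun s => orderOf s = 3).card + 6 * (S.filter fun s => orderOf s ≠ 3).card :=
    fun S hS => hm.2 ⟨S, hS, by rw [cf, cf]⟩
  have tot : ∀ S : Finset G, (S.filter fun s => orderOf s = 3).card +
      (S.filter fun s => orderOf s ≠ 3).card = S.card := fun S =>
    Finset.card_filter_add_card_filter_not _
  obtain ⟨S, hS, e⟩ := hm.1
  lift S to Finset G using Set.toFinite S
  rw [cf, cf] at e
  have h4 : 4 * Group.rank G ≤ m := by
    have := Group.rank_le hS
    have := tot S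
    omega
  refine ⟨?_, ?_, h4, ?_, fun h3 => le_antisymm ?_ h4⟩
  · obtain ⟨V, X, b1, b2, ⟨b3⟩, rfl⟩ := hv.1
    obtain ⟨T, hT, h⟩ := lower_bound X hodd hind b2 b3
    exact (Nat.mul_le_mul_left _ (le T hT)).trans h
  · obtain ⟨V, X, b1, b2, b3, h⟩ := upper_bound S hS
    have := hv.2 ⟨V, X, b1, b2, b3, rfl⟩
    rw [e, mul_add, mul_comm _ 36] at h
    omega
  · have := le R hR'
    have := tot R
    omega
  · have : Fact (Nat.Prime 3) := ⟨Nat.prime_three⟩
    have h1 := le (R.erase 1) (by rw [Finset.coe_erase, Subgroup.closure_sdiff_one, hR'])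
    have h2 : ((R.erase 1).filter fun s => orderOf s ≠ 3).card = 0 := by
      rw [Finset.card_eq_zero, Finset.filter_eq_empty_iff]
      exact fun s hs => not_not.2 (orderOf_eq_prime (h3 s) (Finset.mem_erase.1 hs).1)
    have := tot (R.erase 1)
    have := Finset.card_erase_le (s := R) (a := 1)
    omega

/-- The last clause of `result` applies to groups with arbitrarily many generators. -/
theorem sharp (k : ℕ) : ∃ (G : Type) (_ : Group G) (_ : Finite G), Nontrivial G ∧
    Odd (Nat.card G) ∧ (∀ A B : Subgroup G, A.Normal → B.Normal → IsCompl A B → A = ⊥ ∨ B = ⊥) ∧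
    (∀ g : G, g ^ 3 = 1) ∧ k ≤ Group.rank G :=
  ⟨Heis k, inferInstance, inferInstance, inferInstance, Heis.odd, Heis.indec, Heis.cube,
    Heis.le_rank⟩

end Pool.Agent.Results.MP_b549f0_co.OddOrder
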