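import Pool.Agent.Lib.MP_b549f0_co.SP.Main

namespace Pool.Agent.Results.MP_b549f0_co.SharpPGroups

universe u

/-- A finite `p`-group `G` with no quotient isomorphic to the wreath product of two cyclic groups
of order `p` and with minimal number of generators `d ≥ 8` is the automorphism group of a
trivalent graph with exactly `2 * |G| * (d - 1)` vertices. -/
theorem result (p : ℕ) (hp : p.Prime) (G : Type u) [Group G] [Finite G] (hG : IsPGroup p G)
    (hw : ∀ f : G →* RegularWreathProduct (Multiplicative (ZMod p)) (Multiplicative (ZMod p)),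
      ¬Function.Surjective f)
    (hd : 8 ≤ Group.rank G) :
    ∃ (V : Type u) (X : SimpleGraph V), Finite V ∧
      Nat.card V = 2 * Nat.card G * (Group.rank G - 1) ∧
      (∀ v, (X.neighborSet v).ncard = 3) ∧ Nonempty ((X ≃g X) ≃* G) := by
  have : Fact p.Prime := ⟨hp⟩
  obtain ⟨X, h1, h2⟩ := Pool.Agent.Lib.MP_b549f0_co.SP.main hG hw hd
  refine ⟨_, X, inferInstance, ?_, h1, h2⟩
  rw [Nat.card_prod, Nat.card_eq_fintype_card, Fintype.card_fin]
  ring

end Pool.Agent.Results.MP_b549f0_co.SharpPGroups
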