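import Pool.Agent.Lib.MP_b549f0_co.Cover

namespace Pool.Agent.Results.MP_b549f0_co.TwoND

open Pool.Agent.Lib.MP_b549f0_co

universe u

/-- Every finite group `G` whose minimal number of generators `d` is at least `6` is the
automorphism group of a finite trivalent graph with exactly `2 * |G| * d` vertices. -/
theorem result (G : Type u) [Group G] [Finite G] (hd : 6 ≤ Group.rank G) :
    ∃ (V : Type u) (X : SimpleGraph V), Finite V ∧ Nat.card V = 2 * Nat.card G * Group.rank G ∧
      (∀ v, (X.neighborSet v).ncard = 3) ∧ Nonempty ((X ≃g X) ≃* G) := by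
  obtain ⟨g, hgen, hg⟩ := exists_gens G hd
  refine ⟨Fin (2 * Group.rank G) × G, cover _ hd g, inferInstance, ?_, cover_ncard hd g,
    ⟨(MulEquiv.ofBijective (deck hd g) (deck_bijective hd g hgen hg)).symm⟩⟩
  rw [Nat.card_prod, Nat.card_eq_fintype_card, Fintype.card_fin]
  ring

end Pool.Agent.Results.MP_b549f0_co.TwoND
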